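import Mathlib
import Pool.Agent.Y626.IA.FO

set_option autoImplicit false

/-!
# Subdirect products of division rings are not axiomatizable in infinitary logic

For a field `k` let `R_k` be the quaternion algebra generated over the polynomial ring
`k[x₀, x₁, x₂, ...]` by `i, j` with `i² = x₀`, `j² = x₁`, `ij = -ji`; it is a subring of a division
ring and a free module of rank four over its center. If `k` is countable, then `R_k` is a
subdirect product of division rings, and `R_ℂ` is not (starting file `NotAxiomatizable`). Here we
show by a back-and-forth argument that `R_k` and `R_ℂ` satisfy the same sentences of the infinitary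
logic `L_{∞ω}` if `k` is a countable algebraically closed field of infinite transcendence degree
over the rational numbers.
-/

namespace Pool.Agent.Results.MP_c671ed_lc.InfinitaryLogic

universe u

open FirstOrder Pool.Agent.Y626.IA

open Pool.Agent.Results.MP_c671ed_lc.NotAxiomatizable (QRing rngLang IsSubdirectProduct
  IsSubdirectProductNonUnital not_isSubdirectProductNonUnital not_isSubdirectProduct)

/-- The unital ring `R` is a subring of a division ring, and a finitely generated module over its
center. -/
def Tame (R : Type) [Ring R] : Prop :=
  (∃ (D : Type) (_ : DivisionRing D) (f : R →+* D), Function.Injective f) ∧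
    Module.Finite (Subring.center R) R

theorem tame (F : Type) [Field F] : Tame (QRing F) := ⟨embeds F, finite_center F⟩

/-- Unital rings in the language `(+, -, ·, 0, 1)`, and rings without a required identity in the
language `(+, -, ·, 0)`: there are two rings with the same `L_{∞ω}`-theory, one of which is a
subdirect product of division rings, while the other one is not. So the subdirect products of
division rings are not axiomatizable by any class of sentences of `L_{∞ω}`, in particular not by
first-order sentences, not even among the (unital) rings which are subrings of division rings and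
finitely generated modules over their centers. -/
theorem result :
    (∃ (R S : Type) (_ : Ring R) (_ : Ring S) (_ : FirstOrder.Ring.CompatibleRing R)
      (_ : FirstOrder.Ring.CompatibleRing S), Tame R ∧ Tame S ∧ Countable R ∧
      IsSubdirectProduct R ∧ ¬ IsSubdirectProduct S ∧
      (∀ φ : InfFormula.{u} Language.ring 0, Holds R φ Fin.elim0 ↔ Holds S φ Fin.elim0) ∧
      IsSubdirectProductNonUnital R ∧ ¬ IsSubdirectProductNonUnital S ∧
      (∀ φ : InfFormula.{u} rngLang 0, Holds R φ Fin.elim0 ↔ Holds S φ Fin.elim0)) ∧
    (¬ ∃ T : Set (InfFormula.{u} Language.ring 0),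
      ∀ (R : Type) [Ring R] [FirstOrder.Ring.CompatibleRing R], Tame R →
        ((∀ φ ∈ T, Holds R φ Fin.elim0) ↔ IsSubdirectProduct R)) ∧
    (¬ ∃ T : Set (InfFormula.{u} rngLang 0),
      ∀ (R : Type) [Ring R], Tame R →
        ((∀ φ ∈ T, Holds R φ Fin.elim0) ↔ IsSubdirectProductNonUnital R)) ∧
    (¬ ∃ T : Language.ring.Theory,
      ∀ (R : Type) [Ring R] [FirstOrder.Ring.CompatibleRing R], Tame R →
        (R ⊨ T ↔ IsSubdirectProduct R)) ∧
    (¬ ∃ T : rngLang.Theory,
      ∀ (R : Type) [Ring R], Tame R → (R ⊨ T ↔ IsSubdirectProductNonUnital R)) := by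
  refine ⟨⟨QRing Sm, QRing ℂ, inferInstance, inferInstance, inferInstance, inferInstance,
    tame _, tame _, inferInstance, countable_isSubdirectProduct _, not_isSubdirectProduct,
    fun φ => same_ring φ _ _, countable_isSubdirectProductNonUnital _,
    not_isSubdirectProductNonUnital, fun φ => same_rng φ _ _⟩, ?_, ?_, ?_, ?_⟩
  · rintro ⟨T, hT⟩
    apply not_isSubdirectProduct
    rw [← hT (QRing ℂ) (tame _)]
    intro φ hφ
    exact (same_ring φ _ _).1 ((hT (QRing Sm) (tame _)).2 (countable_isSubdirectProduct _) φ hφ)
  · rintro ⟨T, hT⟩
    apply not_isSubdirectProductNonUnital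
    rw [← hT (QRing ℂ) (tame _)]
    intro φ hφ
    exact (same_rng φ _ _).1
      ((hT (QRing Sm) (tame _)).2 (countable_isSubdirectProductNonUnital _) φ hφ)
  · rintro ⟨T, hT⟩
    apply not_isSubdirectProduct
    rw [← hT (QRing ℂ) (tame _), Language.Theory.model_iff]
    intro φ hφ
    have h1 := (Language.Theory.model_iff T).1
      ((hT (QRing Sm) (tame _)).2 (countable_isSubdirectProduct _)) φ hφ
    rw [← holds_sentence.{0}] at h1 ⊢
    exact (same_ring _ _ _).1 h1
  · rintro ⟨T, hT⟩
    apply not_isSubdirectProductNonUnital
    rw [← hT (QRing ℂ) (tame _), Language.Theory.model_iff]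
    intro φ hφ
    have h1 := (Language.Theory.model_iff T).1
      ((hT (QRing Sm) (tame _)).2 (countable_isSubdirectProductNonUnital _)) φ hφ
    rw [← holds_sentence.{0}] at h1 ⊢
    exact (same_rng _ _ _).1 h1

end Pool.Agent.Results.MP_c671ed_lc.InfinitaryLogic
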